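import Mathlib

/-!
Basic facts on the unordered representation function, and sets with two noncommuting affine
symmetries.
-/

set_option autoImplicit false

open Finset Filter

namespace Pool.Agent.N714.Sym

/-- the representations of `n` as a sum of `h` elements of `A`, the order being disregarded -/
def reps (A : Set ℕ) (h n : ℕ) : Set (Multiset ℕ) :=
  {s | Multiset.card s = h ∧ (∀ a ∈ s, a ∈ A) ∧ s.sum = n}

theorem reps_finite (A : Set ℕ) (h n : ℕ) : (reps A h n).Finite := by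
  refine (Multiset.powerset (h • Multiset.range (n + 1))).toFinset.finite_toSet.subset fun s hs => ?_
  obtain ⟨h1, -, h3⟩ := hs
  rw [Finset.mem_coe, Multiset.mem_toFinset, Multiset.mem_powerset, Multiset.le_iff_count]
  intro a
  by_cases ha : a ∈ s
  · have h4 : a ≤ n := h3 ▸ Multiset.single_le_sum (fun _ _ => Nat.zero_le _) a ha
    rw [Multiset.count_nsmul, Multiset.count_eq_one_of_mem (Multiset.nodup_range _)
      (Multiset.mem_range.2 (by omega)), mul_one, ← h1]
    exact Multiset.count_le_card _ _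
  · rw [Multiset.count_eq_zero_of_notMem ha]
    exact Nat.zero_le _

theorem mem_le {A : Set ℕ} {h n : ℕ} {s : Multiset ℕ} (hs : s ∈ reps A h n) {a : ℕ} (ha : a ∈ s) :
    a ≤ n := hs.2.2 ▸ Multiset.single_le_sum (fun _ _ => Nat.zero_le _) a ha

/-- a lower bound for the number of representations of order `h` by those of order `2` -/
theorem two_le {A : Set ℕ} {a0 : ℕ} (ha0 : a0 ∈ A) (h n : ℕ) (hh : 2 ≤ h) :
    (reps A 2 n).ncard ≤ (reps A h (n + (h - 2) * a0)).ncard := by
  refine Set.ncard_le_ncard_of_injOn (fun s => s + Multiset.replicate (h - 2) a0) ?_ ?_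
    (reps_finite _ _ _)
  · rintro s ⟨h1, h2, h3⟩
    refine ⟨?_, ?_, ?_⟩
    · rw [Multiset.card_add, h1, Multiset.card_replicate]; omega
    · intro a ha
      rcases Multiset.mem_add.1 ha with ha | ha
      · exact h2 a ha
      · rw [Multiset.eq_of_mem_replicate ha]; exact ha0
    · rw [Multiset.sum_add, h3, Multiset.sum_replicate, smul_eq_mul]
  · intro s _ t _ hst
    exact add_right_cancel hst

/-- numbers with `k` digits `0` and `1` in base `α` -/
def D (α : ℕ) : ℕ → Finset ℕ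
  | 0 => {0}
  | (k + 1) => (D α k).image (fun y => α * y) ∪ (D α k).image (fun y => α * y + 1)

/-- the largest of them -/
def S (α : ℕ) : ℕ → ℕ
  | 0 => 0
  | (k + 1) => α * S α k + 1

theorem card_D (α : ℕ) (hα : 2 ≤ α) (k : ℕ) : (D α k).card = 2 ^ k := by
  induction k with
  | zero => simp [D]
  | succ k ih =>
    have h1 : Function.Injective (fun y : ℕ => α * y) := fun x y hxy =>
      Nat.eq_of_mul_eq_mul_left (by omega) hxy
    have h2 : Function.Injective (fun y : ℕ => α * y + 1) := fun x y hxy =>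
      Nat.eq_of_mul_eq_mul_left (by omega) (Nat.add_right_cancel hxy)
    unfold D
    rw [Finset.card_union_of_disjoint, Finset.card_image_of_injective _ h1,
      Finset.card_image_of_injective _ h2, ih, pow_succ]
    · ring
    · rw [Finset.disjoint_left]
      intro x hx hx'
      obtain ⟨y, -, hy⟩ := Finset.mem_image.1 hx
      obtain ⟨z, -, hz⟩ := Finset.mem_image.1 hx'
      have h3 : (α * y) % α = (α * z + 1) % α := by rw [hy, hz]
      rw [Nat.mul_mod_right, Nat.mul_add_mod, Nat.mod_eq_of_lt (by omega)] at h3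
      omega

theorem D_symm (α : ℕ) (k : ℕ) : ∀ y ∈ D α k, y ≤ S α k ∧ S α k - y ∈ D α k := by
  induction k with
  | zero =>
    intro y hy
    have : y = 0 := by simpa [D] using hy
    subst this
    simp [S, D]
  | succ k ih =>
    intro y hy
    unfold D at hy
    rw [Finset.mem_union] at hy
    rcases hy with hy | hy
    · obtain ⟨z, hz, rfl⟩ := Finset.mem_image.1 hy
      obtain ⟨h1, h2⟩ := ih z hz
      have h3 : α * z ≤ α * S α k := Nat.mul_le_mul_left _ h1
      refine ⟨?_, ?_⟩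
      · show α * z ≤ α * S α k + 1
        omega
      · show α * S α k + 1 - α * z ∈ _
        unfold D
        rw [Finset.mem_union]
        right
        refine Finset.mem_image.2 ⟨S α k - z, h2, ?_⟩
        show α * (S α k - z) + 1 = _
        rw [Nat.mul_sub]
        omega
    · obtain ⟨z, hz, rfl⟩ := Finset.mem_image.1 hy
      obtain ⟨h1, h2⟩ := ih z hz
      have h3 : α * z ≤ α * S α k := Nat.mul_le_mul_left _ h1
      refine ⟨?_, ?_⟩
      · show α * z + 1 ≤ α * S α k + 1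
        omega
      · show α * S α k + 1 - (α * z + 1) ∈ _
        unfold D
        rw [Finset.mem_union]
        left
        refine Finset.mem_image.2 ⟨S α k - z, h2, ?_⟩
        show α * (S α k - z) = _
        rw [Nat.mul_sub]
        omega

theorem S_le (α : ℕ) (hα : 2 ≤ α) (k : ℕ) : S α k + 1 ≤ α ^ k := by
  induction k with
  | zero => simp [S]
  | succ k ih =>
    show α * S α k + 1 + 1 ≤ α ^ (k + 1)
    have h1 : α * (S α k + 1) ≤ α * α ^ k := Nat.mul_le_mul_left _ ih
    rw [pow_succ, mul_comm (α ^ k)]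
    have h2 : α * (S α k + 1) = α * S α k + α := by ring
    omega

/-- the elements of `A` produced by the two maps -/
theorem cube {A : Set ℕ} {α : ℕ} {γ δ : ℤ} (hT : ∀ a ∈ A, ∃ b ∈ A, (b : ℤ) = α * a + γ)
    (hS : ∀ a ∈ A, ∃ b ∈ A, (b : ℤ) = α * a + (γ + δ)) {a : ℕ} (ha : a ∈ A) (k : ℕ) :
    ∀ y ∈ D α k, ∃ b ∈ A, (b : ℤ) = α ^ k * a + γ * S α k + δ * y := by
  induction k with
  | zero =>
    intro y hy
    have : y = 0 := by simpa [D] using hy
    subst this
    exact ⟨a, ha, by simp [S]⟩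
  | succ k ih =>
    intro y hy
    unfold D at hy
    rw [Finset.mem_union] at hy
    rcases hy with hy | hy
    · obtain ⟨z, hz, rfl⟩ := Finset.mem_image.1 hy
      obtain ⟨b, hb, hb'⟩ := ih z hz
      obtain ⟨c, hc, hc'⟩ := hT b hb
      refine ⟨c, hc, ?_⟩
      rw [hc', hb']
      show _ = (α : ℤ) ^ (k + 1) * a + γ * ((α * S α k + 1 : ℕ) : ℤ) + δ * ((α * z : ℕ) : ℤ)
      push_cast
      ring
    · obtain ⟨z, hz, rfl⟩ := Finset.mem_image.1 hy
      obtain ⟨b, hb, hb'⟩ := ih z hz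
      obtain ⟨c, hc, hc'⟩ := hS b hb
      refine ⟨c, hc, ?_⟩
      rw [hc', hb']
      show _ = (α : ℤ) ^ (k + 1) * a + γ * ((α * S α k + 1 : ℕ) : ℤ) + δ * ((α * z + 1 : ℕ) : ℤ)
      push_cast
      ring

theorem cube_reps {A : Set ℕ} {α : ℕ} (hα : 2 ≤ α) {γ δ : ℤ} (hδ : δ ≠ 0)
    (hT : ∀ a ∈ A, ∃ b ∈ A, (b : ℤ) = α * a + γ)
    (hS : ∀ a ∈ A, ∃ b ∈ A, (b : ℤ) = α * a + (γ + δ)) {a : ℕ} (ha : a ∈ A) (k : ℕ) :
    ∃ n : ℕ, n ≤ 2 * (a + γ.natAbs + δ.natAbs) * α ^ k ∧ 2 ^ k ≤ n + 1 ∧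
      2 ^ k ≤ 2 * (reps A 2 n).ncard := by
  classical
  choose! f hfA hf using cube hT hS ha k
  have hk0 : (D α k).Nonempty := by
    rw [← Finset.card_pos, card_D α hα k]
    positivity
  obtain ⟨y0, hy0⟩ := hk0
  have hsum : ∀ y ∈ D α k, ((f y : ℤ) + f (S α k - y)) =
      2 * (α ^ k * a + γ * S α k) + δ * S α k := by
    intro y hy
    obtain ⟨h1, h2⟩ := D_symm α k y hy
    rw [hf y hy, hf _ h2]
    push_cast [Nat.cast_sub h1]
    ring
  set n : ℕ := f y0 + f (S α k - y0) with hn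
  have hn' : ∀ y ∈ D α k, f y + f (S α k - y) = n := by
    intro y hy
    have h1 := hsum y hy
    have h2 := hsum y0 hy0
    have h3 : ((f y + f (S α k - y) : ℕ) : ℤ) = ((f y0 + f (S α k - y0) : ℕ) : ℤ) := by
      push_cast
      rw [h1, h2]
    exact_mod_cast h3
  have hinj : Set.InjOn f (D α k) := by
    intro y hy z hz hyz
    have h1 := hf y hy
    have h2 := hf z hz
    rw [hyz, h2] at h1
    have h3 : δ * ((y : ℤ) - z) = 0 := by linarith
    rcases mul_eq_zero.1 h3 with h | h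
    · exact absurd h hδ
    · have : (y : ℤ) = z := by linarith
      exact_mod_cast this
  refine ⟨n, ?_, ?_, ?_⟩
  · have h1 := hsum y0 hy0
    have h2 := S_le α hα k
    have h3 : (n : ℤ) = 2 * (α ^ k * a + γ * S α k) + δ * S α k := by
      rw [hn]; push_cast; exact h1
    have h4 : ((S α k : ℕ) : ℤ) ≤ (α : ℤ) ^ k := by
      have : S α k ≤ α ^ k := by omega
      exact_mod_cast this
    have h5 : (0 : ℤ) ≤ S α k := Int.natCast_nonneg _
    have h6 : γ ≤ |γ| := le_abs_self γ
    have h7 : δ ≤ |δ| := le_abs_self δ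
    have h8 : γ * S α k ≤ |γ| * (α : ℤ) ^ k :=
      (mul_le_mul_of_nonneg_right h6 h5).trans (mul_le_mul_of_nonneg_left h4 (abs_nonneg _))
    have h9 : δ * S α k ≤ |δ| * (α : ℤ) ^ k :=
      (mul_le_mul_of_nonneg_right h7 h5).trans (mul_le_mul_of_nonneg_left h4 (abs_nonneg _))
    have h10 : (0 : ℤ) ≤ |δ| * (α : ℤ) ^ k := by positivity
    have h11 : (n : ℤ) ≤ 2 * (a + |γ| + |δ|) * (α : ℤ) ^ k := by
      rw [h3]
      nlinarith
    have h12 : ((2 * (a + γ.natAbs + δ.natAbs) * α ^ k : ℕ) : ℤ) =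
        2 * (a + |γ| + |δ|) * (α : ℤ) ^ k := by
      push_cast
      rfl
    exact_mod_cast h12 ▸ h11
  · have h1 : (D α k).image f ⊆ range (n + 1) := by
      intro x hx
      obtain ⟨y, hy, rfl⟩ := Finset.mem_image.1 hx
      rw [Finset.mem_range]
      have := hn' y hy
      omega
    have h2 := Finset.card_le_card h1
    rwa [Finset.card_image_of_injOn hinj, card_D α hα k, card_range] at h2
  · set g : ℕ → Multiset ℕ := fun y => {f y, f (S α k - y)} with hg
    have h1 : ((D α k).image g : Set (Multiset ℕ)) ⊆ reps A 2 n := by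
      intro s hs
      obtain ⟨y, hy, rfl⟩ := Finset.mem_image.1 (Finset.mem_coe.1 hs)
      refine ⟨by simp [hg], ?_, ?_⟩
      · intro b hb
        simp only [hg, Multiset.insert_eq_cons, Multiset.mem_cons, Multiset.mem_singleton] at hb
        rcases hb with rfl | rfl
        · exact hfA y hy
        · exact hfA _ (D_symm α k y hy).2
      · simp only [hg, Multiset.insert_eq_cons, Multiset.sum_cons, Multiset.sum_singleton]
        exact hn' y hy
    have h2 : (D α k).card ≤ 2 * ((D α k).image g).card := by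
      refine Finset.card_le_mul_card_image (D α k) 2 ?_
      intro b _
      by_contra hcon
      push Not at hcon
      obtain ⟨x, y, z, hx, hy, hz, hxy, hxz, hyz⟩ := Finset.two_lt_card_iff.1 hcon
      rw [Finset.mem_filter] at hx hy hz
      have hx' := congrArg (fun s => f z ∈ s) (hz.2.trans hx.2.symm)
      have e1 : f z ∈ g x := by
        rw [hx.2, ← hz.2]
        simp [hg]
      have e2 : f z ∈ g y := by
        rw [hy.2, ← hz.2]
        simp [hg]
      have e3 : f y ∈ g x := by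
        rw [hx.2, ← hy.2]
        simp [hg]
      simp only [hg, Multiset.insert_eq_cons, Multiset.mem_cons, Multiset.mem_singleton] at e1 e2 e3
      have i1 : f z ≠ f x := fun h => hxz (hinj hx.1 hz.1 h.symm)
      have i2 : f z ≠ f y := fun h => hyz (hinj hy.1 hz.1 h.symm)
      have i3 : f y ≠ f x := fun h => hxy (hinj hx.1 hy.1 h.symm)
      have j1 := e1.resolve_left i1
      have j3 := e3.resolve_left i3
      exact i2 (j1.trans j3.symm)
    have h3 : ((D α k).image g).card ≤ (reps A 2 n).ncard := by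
      rw [← Set.ncard_coe_finset]
      exact Set.ncard_le_ncard h1 (reps_finite _ _ _)
    rw [card_D α hα k] at h2
    omega

/-- Two noncommuting affine symmetries. -/
theorem noncomm {A : Set ℕ} {α : ℕ} (hα : 2 ≤ α) {γ δ : ℤ} (hδ : δ ≠ 0)
    (hT : ∀ a ∈ A, ∃ b ∈ A, (b : ℤ) = α * a + γ)
    (hS : ∀ a ∈ A, ∃ b ∈ A, (b : ℤ) = α * a + (γ + δ)) (hA : A.Nonempty) (h : ℕ) (hh : 2 ≤ h) :
    ∃ c : ℝ, 0 < c ∧ ∃ᶠ n : ℕ in atTop, (n : ℝ) ^ c ≤ (reps A h n).ncard := by
  obtain ⟨a, ha⟩ := hA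
  -- `n ≤ C α ^ k ≤ 2 ^ (L k)`
  set C := 2 * (a + γ.natAbs + δ.natAbs) + (h - 2) * a + 1 with hC
  obtain ⟨L, hL⟩ : ∃ L : ℕ, C * α ≤ 2 ^ L := ⟨C * α, (Nat.lt_two_pow_self).le⟩
  have hL1 : 1 ≤ L := by
    by_contra hcon
    have : L = 0 := by omega
    subst this
    have : 1 * 2 ≤ C * α := Nat.mul_le_mul (by omega) hα
    omega
  refine ⟨1 / (2 * L), by positivity, ?_⟩
  rw [frequently_atTop]
  intro N
  set k := N + 2 with hk
  obtain ⟨n, h1, h2, h3⟩ := cube_reps hα hδ hT hS ha k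
  have h4 : N < 2 ^ N := Nat.lt_two_pow_self
  have h5 : (2 : ℕ) ^ k = 4 * 2 ^ N := by rw [hk, pow_add]; ring
  refine ⟨n + (h - 2) * a, by omega, ?_⟩
  have h6 := two_le ha h n hh
  have h7 : n + (h - 2) * a ≤ (2 ^ L) ^ k := by
    have e1 : 1 ≤ α ^ k := Nat.one_le_pow _ _ (by omega)
    have e2 : (h - 2) * a ≤ ((h - 2) * a) * α ^ k := Nat.le_mul_of_pos_right _ (by omega)
    have e3 : n + (h - 2) * a ≤ C * α ^ k := by
      have : C * α ^ k = 2 * (a + γ.natAbs + δ.natAbs) * α ^ k + ((h - 2) * a) * α ^ k + α ^ k := by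
        rw [hC]; ring
      omega
    have e4 : C * α ^ k ≤ (C * α) ^ k := by
      rw [mul_pow]
      refine Nat.mul_le_mul_right _ ?_
      calc C = C ^ 1 := (pow_one _).symm
        _ ≤ C ^ k := Nat.pow_le_pow_right (by omega) (by omega)
    exact e3.trans (e4.trans (Nat.pow_le_pow_left hL k))
  have h8 : ((n + (h - 2) * a : ℕ) : ℝ) ^ (1 / (2 * L) : ℝ) ≤ (2 : ℝ) ^ ((k : ℝ) / 2) := by
    calc ((n + (h - 2) * a : ℕ) : ℝ) ^ (1 / (2 * L) : ℝ)
        ≤ (((2 ^ L) ^ k : ℕ) : ℝ) ^ (1 / (2 * L) : ℝ) :=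
          Real.rpow_le_rpow (Nat.cast_nonneg _) (by exact_mod_cast h7) (by positivity)
      _ = (2 : ℝ) ^ ((k : ℝ) / 2) := by
          push_cast
          rw [← pow_mul, ← Real.rpow_natCast, ← Real.rpow_mul (by norm_num)]
          congr 1
          have : (L : ℝ) ≠ 0 := by exact_mod_cast (by omega : L ≠ 0)
          push_cast
          field_simp
  refine h8.trans ?_
  have h9 : (2 : ℝ) ^ ((k : ℝ) / 2) ≤ (2 : ℝ) ^ ((k : ℝ) - 1) := by
    refine Real.rpow_le_rpow_of_exponent_le (by norm_num) ?_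
    have : (2 : ℝ) ≤ k := by exact_mod_cast (by omega : 2 ≤ k)
    linarith
  refine h9.trans ?_
  rw [Real.rpow_sub (by norm_num), Real.rpow_one, Real.rpow_natCast, div_le_iff₀ (by norm_num)]
  have h10 : (2 : ℕ) ^ k ≤ (reps A h (n + (h - 2) * a)).ncard * 2 := by omega
  exact_mod_cast h10

end Pool.Agent.N714.Sym
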