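import Pool.Agent.N714.Sym.Orbits

/-!
The theorem on bases with finitely many orbits.
-/

set_option autoImplicit false

open Finset Filter

namespace Pool.Agent.N714.Sym

theorem many {B : Set ℕ} (hpos : ∀ b ∈ B, 0 < b) {h : ℕ} (hh : 2 ≤ h) {n₀ : ℕ}
    (hB : ∀ n, n₀ ≤ n → (reps B h n).Nonempty) (F : Finset ℕ) (f m m' : ℕ → ℕ)
    (hF : ∀ b ∈ B, f b ∈ F ∧ 0 < m b ∧ 0 < m' b ∧ Mult B (m b) ∧ Mult B (m' b) ∧
      m' b * b = m b * f b) :
    ∃ C K : ℕ, 0 < C ∧ 0 < K ∧ ∀ t : ℕ, ∃ Q : Finset ℕ, Q.card = t ∧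
      (∀ b ∈ Q, b ∈ B ∧ b ≤ C * K ^ (F.card * t)) ∧
      ∃ c ∈ F, t ≤ (reps B h (c * ∏ b ∈ Q, m b)).ncard := by
  obtain ⟨σ, C, K, hC, hK, hσ, H⟩ := fiber hpos hh hB F f fun b hb => (hF b hb).1
  refine ⟨C, K, hC, hK, fun t => ?_⟩
  obtain ⟨Q, hQ, h1, ⟨c, hc, h2⟩, h3⟩ := H t
  refine ⟨Q, hQ, fun b hb => ⟨(h1 b hb).1, (h1 b hb).2.2⟩, c, hc, ?_⟩
  rcases Q.eq_empty_or_nonempty with rfl | ⟨b₀, hb₀⟩
  · rw [← hQ]; simp
  have hc0 : 0 < c := by
    obtain ⟨-, i1, i2, -, -, i3⟩ := hF b₀ (h1 b₀ hb₀).1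
    rw [h2 b₀ hb₀] at i3
    have := hpos b₀ (h1 b₀ hb₀).1
    rcases Nat.eq_zero_or_pos c with h | h
    · subst h
      rw [mul_zero] at i3
      have := Nat.mul_pos i2 this
      omega
    · exact h
  have := types Q (fun b => b) m m' c σ (fun b hb => hσ b (h1 b hb).2.1)
    (fun b hb => (hF b (h1 b hb).1).2.2.2.1) (fun b hb => (hF b (h1 b hb).1).2.2.2.2.1)
    (fun b hb => hpos b (h1 b hb).1) (fun b hb => (hF b (h1 b hb).1).2.1) hc0
    (fun b hb => by
      have := (hF b (h1 b hb).1).2.2.2.2.2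
      rw [h2 b hb] at this
      exact this) h3
  rwa [hQ] at this

theorem quant {B : Set ℕ} (hpos : ∀ b ∈ B, 0 < b) {h : ℕ} (hh : 2 ≤ h) {n₀ : ℕ}
    (hB : ∀ n, n₀ ≤ n → (reps B h n).Nonempty) (F : Finset ℕ) (f m m' : ℕ → ℕ)
    (hF : ∀ b ∈ B, f b ∈ F ∧ 0 < m b ∧ 0 < m' b ∧ Mult B (m b) ∧ Mult B (m' b) ∧
      m' b * b = m b * f b) (D : ℕ) (hD : ∀ b ∈ B, m b ≤ D * b ^ D) :
    ∃ c : ℝ, 0 < c ∧ ∃ᶠ n : ℕ in atTop, c * Real.sqrt (Real.log n) ≤ (reps B h n).ncard := by
  classical
  obtain ⟨C, K, hC, hK, H⟩ := many hpos hh hB F f m m' hF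
  -- the constant
  set M : ℕ := F.sup id with hM
  set E : ℝ := Real.log (M + 1) + (Real.log (D + 1) + D * (Real.log C + F.card * Real.log K)) + 1
    with hE
  have hlC : 0 ≤ Real.log C := Real.log_natCast_nonneg _
  have hlK : 0 ≤ Real.log K := Real.log_natCast_nonneg _
  have hlD : 0 ≤ Real.log (D + 1 : ℝ) := by exact_mod_cast Real.log_natCast_nonneg (D + 1)
  have hlM : 0 ≤ Real.log (M + 1 : ℝ) := by exact_mod_cast Real.log_natCast_nonneg (M + 1)
  have hE1 : 1 ≤ E := by
    rw [hE]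
    have : 0 ≤ (D : ℝ) * (Real.log C + F.card * Real.log K) := by positivity
    linarith
  refine ⟨1 / Real.sqrt E, by positivity, ?_⟩
  rw [frequently_atTop]
  intro N
  obtain ⟨t, ht1, ht⟩ : ∃ t : ℕ, 1 ≤ t ∧ ∀ n < N, (reps B h n).ncard < t := by
    refine ⟨(range N).sup (fun n => (reps B h n).ncard) + 1, by omega, fun n hn => ?_⟩
    exact Nat.lt_succ_of_le (Finset.le_sup (f := fun n => (reps B h n).ncard)
      (Finset.mem_range.2 hn))
  obtain ⟨Q, hQ, h1, c, hc, h2⟩ := H t
  set n := c * ∏ b ∈ Q, m b with hn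
  refine ⟨n, ?_, ?_⟩
  · by_contra hcon
    have := ht n (by omega)
    omega
  · have hcM : c ≤ M := Finset.le_sup (f := id) hc
    set X := C * K ^ (F.card * t) with hX
    have hX0 : 0 < X := by positivity
    have h3 : ∏ b ∈ Q, m b ≤ ((D + 1) * X ^ D) ^ t := by
      rw [← hQ]
      refine Finset.prod_le_pow_card _ _ _ fun b hb => ?_
      calc m b ≤ D * b ^ D := hD b (h1 b hb).1
        _ ≤ (D + 1) * X ^ D := Nat.mul_le_mul (by omega) (Nat.pow_le_pow_left (h1 b hb).2 _)
    have h4 : n ≤ (M + 1) * ((D + 1) * X ^ D) ^ t := Nat.mul_le_mul (by omega) h3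
    have h5 : Real.log n ≤ E * (t : ℝ) ^ 2 := by
      rcases Nat.eq_zero_or_pos n with h0 | h0
      · rw [h0]; simp only [Nat.cast_zero, Real.log_zero]; positivity
      have ht' : (1 : ℝ) ≤ t := by exact_mod_cast ht1
      have hlX : Real.log X = Real.log C + F.card * t * Real.log K := by
        rw [hX]
        push_cast
        rw [Real.log_mul (by positivity) (by positivity), Real.log_pow]
        push_cast
        ring
      calc Real.log n ≤ Real.log (((M + 1) * ((D + 1) * X ^ D) ^ t : ℕ) : ℝ) := by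
            refine Real.log_le_log (by exact_mod_cast h0) (by exact_mod_cast h4)
        _ = Real.log (M + 1) + t * (Real.log (D + 1) + D * (Real.log C + F.card * t * Real.log K)) := by
            push_cast
            rw [Real.log_mul (by positivity) (by positivity), Real.log_pow,
              Real.log_mul (by positivity) (by positivity), Real.log_pow, hlX]
        _ ≤ E * (t : ℝ) ^ 2 := by
            have t2 : (t : ℝ) ≤ (t : ℝ) ^ 2 := by nlinarith
            have t1 : (1 : ℝ) ≤ (t : ℝ) ^ 2 := by nlinarith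
            have e1 : Real.log (M + 1) ≤ Real.log (M + 1) * (t : ℝ) ^ 2 :=
              le_mul_of_one_le_right hlM t1
            have e2 : t * Real.log (D + 1) ≤ Real.log (D + 1) * (t : ℝ) ^ 2 := by
              rw [mul_comm]
              exact mul_le_mul_of_nonneg_left t2 hlD
            have e3 : t * (D * Real.log C) ≤ (D * Real.log C) * (t : ℝ) ^ 2 := by
              rw [mul_comm]
              exact mul_le_mul_of_nonneg_left t2 (by positivity)
            rw [hE]
            have e4 : 0 ≤ (t : ℝ) ^ 2 := by positivity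
            nlinarith
    have h6 : Real.sqrt (Real.log n) ≤ Real.sqrt E * t := by
      calc Real.sqrt (Real.log n) ≤ Real.sqrt (E * (t : ℝ) ^ 2) := Real.sqrt_le_sqrt h5
        _ = Real.sqrt E * t := by
            rw [Real.sqrt_mul (by linarith), Real.sqrt_sq (Nat.cast_nonneg _)]
    have hsE : 0 < Real.sqrt E := Real.sqrt_pos.2 (by linarith)
    calc 1 / Real.sqrt E * Real.sqrt (Real.log n) ≤ 1 / Real.sqrt E * (Real.sqrt E * t) :=
          mul_le_mul_of_nonneg_left h6 (by positivity)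
      _ = t := by field_simp
      _ ≤ _ := by exact_mod_cast h2

/-- translation by an integer -/
theorem shift {A B : Set ℕ} {s : ℤ} (hBA : ∀ b ∈ B, ∃ a ∈ A, (b : ℤ) = a + s) (h m : ℕ)
    (hne : (reps B h m).Nonempty) :
    ∃ n : ℕ, (n : ℤ) = m - h * s ∧ (reps B h m).ncard ≤ (reps A h n).ncard ∧
      (reps A h n).Nonempty := by
  choose! f hf hfs using hBA
  have key : ∀ t ∈ reps B h m, (((t.map f).sum : ℕ) : ℤ) = m - h * s := by
    intro t ht
    obtain ⟨h1, h2, h3⟩ := ht
    have e1 : (((Multiset.map f t).sum : ℕ) : ℤ) =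
        (Multiset.map (fun b : ℕ => ((b : ℤ) - s)) t).sum := by
      rw [Nat.cast_multiset_sum, Multiset.map_map]
      refine congrArg Multiset.sum (Multiset.map_congr rfl fun b hb => ?_)
      have := hfs b (h2 b hb)
      simp only [Function.comp_apply]
      linarith
    rw [e1, Multiset.sum_map_sub, Multiset.map_const', Multiset.sum_replicate, h1, nsmul_eq_mul,
      ← h3, Nat.cast_multiset_sum]
  obtain ⟨t₀, ht₀⟩ := hne
  refine ⟨(t₀.map f).sum, key t₀ ht₀, ?_, ?_⟩
  · refine Set.ncard_le_ncard_of_injOn (fun t => t.map f) ?_ ?_ (reps_finite _ _ _)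
    · intro t ht
      refine ⟨by rw [Multiset.card_map]; exact ht.1, ?_, ?_⟩
      · intro a ha
        obtain ⟨b, hb, rfl⟩ := Multiset.mem_map.1 ha
        exact hf b (ht.2.1 b hb)
      · have e1 := key t ht
        have e2 := key t₀ ht₀
        rw [← e2] at e1
        exact_mod_cast e1
    · intro t ht t' ht' he
      have e1 : ∀ u ∈ reps B h m,
          Multiset.map (fun a : ℕ => ((a : ℤ) + s).toNat) (Multiset.map f u) = u := by
        intro u hu
        rw [Multiset.map_map]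
        conv_rhs => rw [← Multiset.map_id u]
        refine Multiset.map_congr rfl fun b hb => ?_
        have := hfs b (hu.2.1 b hb)
        simp only [Function.comp_apply, id]
        omega
      have h' : Multiset.map f t = Multiset.map f t' := he
      rw [← e1 t ht, ← e1 t' ht', h']
  · refine ⟨t₀.map f, by rw [Multiset.card_map]; exact ht₀.1, ?_, rfl⟩
    intro a ha
    obtain ⟨b, hb, rfl⟩ := Multiset.mem_map.1 ha
    exact hf b (ht₀.2.1 b hb)

end Pool.Agent.N714.Sym
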