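import Pool.Agent.N714.Sym.Types

/-!
Bases with finitely many orbits under their multipliers.
-/

set_option autoImplicit false

open Finset Filter

namespace Pool.Agent.N714.Sym

/-- the counting bound for bases -/
theorem basis_count {B : Set ℕ} {h n₀ : ℕ} (hB : ∀ n, n₀ ≤ n → (reps B h n).Nonempty) (X : ℕ) :
    X + 1 ≤ n₀ + (B ∩ Set.Iic X).ncard ^ h := by
  classical
  have hfin : (B ∩ Set.Iic X).Finite := (Set.finite_Iic X).subset Set.inter_subset_right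
  set BX := hfin.toFinset with hBX
  have h1 : Finset.Icc n₀ X ⊆
      (Fintype.piFinset fun _ : Fin h => BX).image fun f => ∑ i, f i := by
    intro n hn
    rw [Finset.mem_Icc] at hn
    obtain ⟨s, hs⟩ := hB n hn.1
    have hs' := hs
    obtain ⟨c1, c2, c3⟩ := hs
    have hl : s.toList.length = h := by rw [Multiset.length_toList, c1]
    refine Finset.mem_image.2 ⟨fun i => s.toList.get (i.cast hl.symm), ?_, ?_⟩
    · rw [Fintype.mem_piFinset]
      intro i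
      have hi : s.toList.get (i.cast hl.symm) ∈ s :=
        Multiset.mem_toList.1 (List.get_mem _ _)
      rw [hBX, hfin.mem_toFinset]
      exact ⟨c2 _ hi, (mem_le hs' hi).trans hn.2⟩
    · have e1 : ∑ i : Fin h, s.toList.get (i.cast hl.symm) =
          ∑ i : Fin s.toList.length, s.toList.get i := by
        refine Fintype.sum_equiv (finCongr hl.symm) _ _ fun i => rfl
      rw [e1, ← c3]
      have e2 : ∑ i : Fin s.toList.length, s.toList.get i = s.toList.sum := by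
        rw [← List.sum_ofFn, List.ofFn_get]
      rw [e2, Multiset.sum_toList]
  have h2 := (Finset.card_le_card h1).trans Finset.card_image_le
  rw [Fintype.card_piFinset_const, Nat.card_Icc] at h2
  rw [Set.ncard_eq_toFinset_card _ hfin]
  have h3 : BX.card ^ h = hfin.toFinset.card ^ h := rfl
  rw [← h3]
  omega

theorem small_part {B : Set ℕ} {h b : ℕ} (hh : 2 ≤ h) {s : Multiset ℕ} (hs : s ∈ reps B h b) :
    ∃ x ∈ s, 2 * x ≤ b := by
  by_contra hcon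
  push Not at hcon
  obtain ⟨h1, h2, h3⟩ := hs
  have h4 := Multiset.card_nsmul_le_sum (s := s.map fun x => 2 * x) (a := b + 1) (by
    intro y hy
    obtain ⟨x, hx, rfl⟩ := Multiset.mem_map.1 hy
    exact hcon x hx)
  rw [Multiset.card_map, h1, Multiset.sum_map_mul_left, Multiset.map_id', h3, smul_eq_mul] at h4
  have h5 : 2 * (b + 1) ≤ h * (b + 1) := Nat.mul_le_mul_right _ hh
  omega

/-- There are many types. -/
theorem many_types {B : Set ℕ} (hpos : ∀ b ∈ B, 0 < b) {h : ℕ} (hh : 2 ≤ h) {n₀ : ℕ}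
    (hB : ∀ n, n₀ ≤ n → (reps B h n).Nonempty) (σ : ℕ → Multiset ℕ)
    (hσ : ∀ b, n₀ ≤ b → σ b ∈ reps B h b) :
    ∃ C K : ℕ, 0 < C ∧ 0 < K ∧
      ∀ X, X ≤ C * K ^ ((fun b => typ b (σ b)) '' (B ∩ Set.Icc n₀ X)).ncard := by
  classical
  set q : ℝ := (1 / 2 : ℝ) ^ (1 / (2 * h) : ℝ) with hq
  have hh0 : (0 : ℝ) < 2 * h := by positivity
  have hq0 : 0 < q := Real.rpow_pos_of_pos (by norm_num) _
  have hq1 : q < 1 := Real.rpow_lt_one (by norm_num) (by norm_num) (by positivity)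
  have hqh : q ^ (2 * h) = 1 / 2 := by
    rw [hq, ← Real.rpow_natCast, ← Real.rpow_mul (by norm_num)]
    push_cast
    rw [one_div_mul_cancel hh0.ne', Real.rpow_one]
  set κ : ℝ := (1 / (1 - q)) ^ (2 * h * h) with hκ
  have hκ1 : 1 ≤ 1 / (1 - q) := by
    rw [le_div_iff₀ (by linarith)]; linarith
  have hκ1' : 1 ≤ κ := one_le_pow₀ hκ1
  set K : ℕ := ⌈κ⌉₊ with hK
  have hKκ : κ ≤ K := Nat.le_ceil _
  have hK0 : 0 < K := by
    have : (0 : ℝ) < K := by linarith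
    exact_mod_cast this
  refine ⟨2 * n₀ + 4 * (n₀ + 1) ^ (2 * h), K, by positivity, hK0, fun X => ?_⟩
  set TT := (fun b => typ b (σ b)) '' (B ∩ Set.Icc n₀ X) with hTT
  have hTfin : TT.Finite := ((Set.finite_Icc n₀ X).subset Set.inter_subset_right).image _
  set T := hTfin.toFinset with hT
  have hTc : TT.ncard = T.card := Set.ncard_eq_toFinset_card _ hTfin
  rw [hTc]
  have hKT : 1 ≤ K ^ T.card := Nat.one_le_pow _ _ hK0
  by_cases hX : X < 2 * n₀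
  · calc X ≤ 2 * n₀ + 4 * (n₀ + 1) ^ (2 * h) := by omega
      _ ≤ _ := Nat.le_mul_of_pos_right _ (by omega)
  by_cases hX0 : X = 0
  · subst hX0; exact Nat.zero_le _
  -- the quotients
  set Y : Finset ℚ := T.biUnion Multiset.toFinset with hY
  have hYc : Y.card ≤ T.card * h := by
    refine Finset.card_biUnion_le_card_mul _ _ _ fun τ hτ => ?_
    obtain ⟨b, hb, rfl⟩ := hTfin.mem_toFinset.1 hτ
    refine (Multiset.toFinset_card_le _).trans ?_
    show Multiset.card (Multiset.map (fun x : ℕ => (x : ℚ) / (b : ℚ)) (σ b)) ≤ h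
    rw [Multiset.card_map, (hσ b hb.2.1).1]
  have hdesc : ∀ b ∈ B, n₀ + 1 ≤ b → b ≤ X → ∃ x ∈ B, 0 < x ∧ 2 * x ≤ b ∧ (x : ℚ) / b ∈ Y := by
    intro b hb hb1 hb2
    have hs := hσ b (by omega)
    obtain ⟨x, hx, h2x⟩ := small_part hh hs
    refine ⟨x, hs.2.1 x hx, hpos x (hs.2.1 x hx), h2x, ?_⟩
    rw [hY, Finset.mem_biUnion]
    refine ⟨typ b (σ b), hTfin.mem_toFinset.2 ⟨b, ⟨hb, by omega, hb2⟩, rfl⟩, ?_⟩
    rw [Multiset.mem_toFinset]
    exact Multiset.mem_map.2 ⟨x, hx, rfl⟩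
  have hc := count (n₀ + 1) X Y hdesc q hq0 hq1
  set N := (B ∩ Set.Iic X).ncard with hN
  set L := Nat.log 2 X with hL
  have h2L : (2 : ℝ) ^ L ≤ X := by
    have := Nat.pow_log_le_self 2 hX0
    exact_mod_cast this
  have hX0' : (0 : ℝ) < X := by
    have : 0 < X := Nat.pos_of_ne_zero hX0
    exact_mod_cast this
  have h1 : (N : ℝ) ^ (2 * h) * (1 / 2) ^ L ≤ (n₀ + 1) ^ (2 * h) * κ ^ T.card := by
    have e1 := pow_le_pow_left₀ (by positivity) hc (2 * h)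
    rw [mul_pow, mul_pow] at e1
    have e2 : (q ^ L) ^ (2 * h) = (1 / 2) ^ L := by
      rw [← pow_mul, mul_comm, pow_mul, hqh]
    rw [e2] at e1
    refine e1.trans ?_
    push_cast
    refine mul_le_mul_of_nonneg_left ?_ (by positivity)
    rw [← pow_mul, hκ, ← pow_mul]
    refine pow_le_pow_right₀ hκ1 ?_
    calc Y.card * (2 * h) ≤ (T.card * h) * (2 * h) := Nat.mul_le_mul_right _ hYc
      _ = 2 * h * h * T.card := by ring
  have h2 : (N : ℝ) ^ (2 * h) ≤ X * ((n₀ + 1) ^ (2 * h) * κ ^ T.card) := by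
    have e1 : (1 : ℝ) / X ≤ (1 / 2) ^ L := by
      rw [one_div_pow]
      exact one_div_le_one_div_of_le (by positivity) h2L
    have e2 : (N : ℝ) ^ (2 * h) * (1 / X) ≤ (n₀ + 1) ^ (2 * h) * κ ^ T.card :=
      (mul_le_mul_of_nonneg_left e1 (by positivity)).trans h1
    rw [mul_one_div, div_le_iff₀ hX0'] at e2
    linarith
  have h3 : (X : ℝ) / 2 ≤ (N : ℝ) ^ h := by
    have e1 := basis_count hB X
    rw [← hN] at e1
    have e2 : X ≤ 2 * N ^ h := by omega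
    have e3 : (X : ℝ) ≤ 2 * (N : ℝ) ^ h := by exact_mod_cast e2
    linarith
  have h4 : ((X : ℝ) / 2) ^ 2 ≤ X * ((n₀ + 1) ^ (2 * h) * κ ^ T.card) := by
    calc ((X : ℝ) / 2) ^ 2 ≤ ((N : ℝ) ^ h) ^ 2 := pow_le_pow_left₀ (by positivity) h3 2
      _ = (N : ℝ) ^ (2 * h) := by rw [← pow_mul, mul_comm]
      _ ≤ _ := h2
  have h5 : (X : ℝ) ≤ 4 * (n₀ + 1) ^ (2 * h) * κ ^ T.card := by
    have e1 : (X : ℝ) * X ≤ X * (4 * (n₀ + 1) ^ (2 * h) * κ ^ T.card) := by nlinarith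
    exact le_of_mul_le_mul_left e1 hX0'
  have h6 : κ ^ T.card ≤ (K : ℝ) ^ T.card := pow_le_pow_left₀ (by linarith) hKκ _
  have h7 : (X : ℝ) ≤ ((2 * n₀ + 4 * (n₀ + 1) ^ (2 * h)) * K ^ T.card : ℝ) := by
    calc (X : ℝ) ≤ 4 * (n₀ + 1) ^ (2 * h) * κ ^ T.card := h5
      _ ≤ 4 * (n₀ + 1) ^ (2 * h) * (K : ℝ) ^ T.card :=
          mul_le_mul_of_nonneg_left h6 (by positivity)
      _ ≤ _ := by
          refine mul_le_mul_of_nonneg_right ?_ (by positivity)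
          have : (0 : ℝ) ≤ 2 * n₀ := by positivity
          linarith
  exact_mod_cast h7

/-- many types in a single orbit -/
theorem fiber {B : Set ℕ} (hpos : ∀ b ∈ B, 0 < b) {h : ℕ} (hh : 2 ≤ h) {n₀ : ℕ}
    (hB : ∀ n, n₀ ≤ n → (reps B h n).Nonempty) (F : Finset ℕ) (f : ℕ → ℕ)
    (hf : ∀ b ∈ B, f b ∈ F) :
    ∃ σ : ℕ → Multiset ℕ, ∃ C K : ℕ, 0 < C ∧ 0 < K ∧ (∀ b, n₀ ≤ b → σ b ∈ reps B h b) ∧
      ∀ t : ℕ, ∃ Q : Finset ℕ, Q.card = t ∧ (∀ b ∈ Q, b ∈ B ∧ n₀ ≤ b ∧ b ≤ C * K ^ (F.card * t)) ∧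
        (∃ c ∈ F, ∀ b ∈ Q, f b = c) ∧
        ∀ b ∈ Q, ∀ b' ∈ Q, typ b (σ b) = typ b' (σ b') → b = b' := by
  classical
  choose! σ hσ using hB
  obtain ⟨C, K, hC, hK, hX⟩ := many_types hpos hh (fun n hn => ⟨σ n, hσ n hn⟩) σ hσ
  refine ⟨σ, 2 * C, K, by omega, hK, hσ, fun t => ?_⟩
  set X := 2 * C * K ^ (F.card * t) with hXd
  set TT := (fun b => typ b (σ b)) '' (B ∩ Set.Icc n₀ X) with hTT
  have hTfin : TT.Finite := ((Set.finite_Icc n₀ X).subset Set.inter_subset_right).image _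
  set T := hTfin.toFinset with hT
  have hTc : TT.ncard = T.card := Set.ncard_eq_toFinset_card _ hTfin
  have h1 := hX X
  rw [hTc] at h1
  have h2 : F.card * t < T.card := by
    by_contra hcon
    push Not at hcon
    have h3 : K ^ T.card ≤ K ^ (F.card * t) := Nat.pow_le_pow_right hK hcon
    have h4 : C * K ^ T.card ≤ C * K ^ (F.card * t) := Nat.mul_le_mul_left _ h3
    have h5 : 0 < C * K ^ (F.card * t) := by positivity
    have h6 : X = 2 * (C * K ^ (F.card * t)) := by rw [hXd]; ring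
    omega
  have hch : ∀ τ ∈ T, ∃ b ∈ B ∩ Set.Icc n₀ X, typ b (σ b) = τ := by
    intro τ hτ
    obtain ⟨b, hb, hb'⟩ := hTfin.mem_toFinset.1 hτ
    exact ⟨b, hb, hb'⟩
  choose! g hg hgτ using hch
  obtain ⟨c, hc, hlt⟩ := Finset.exists_lt_card_fiber_of_mul_lt_card_of_maps_to
    (s := T) (t := F) (f := fun τ => f (g τ)) (n := t) (fun τ hτ => hf _ (hg τ hτ).1) h2
  obtain ⟨P, hP, hPc⟩ := Finset.exists_subset_card_eq hlt.le
  have hPT : ∀ τ ∈ P, τ ∈ T ∧ f (g τ) = c := fun τ hτ => Finset.mem_filter.1 (hP hτ)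
  have hinj : Set.InjOn g P := by
    intro τ hτ τ' hτ' he
    rw [← hgτ τ (hPT τ hτ).1, ← hgτ τ' (hPT τ' hτ').1, he]
  refine ⟨P.image g, ?_, ?_, ⟨c, hc, ?_⟩, ?_⟩
  · rw [Finset.card_image_of_injOn hinj, hPc]
  · intro b hb
    obtain ⟨τ, hτ, rfl⟩ := Finset.mem_image.1 hb
    obtain ⟨i1, i2, i3⟩ := hg τ (hPT τ hτ).1
    exact ⟨i1, i2, i3⟩
  · intro b hb
    obtain ⟨τ, hτ, rfl⟩ := Finset.mem_image.1 hb
    exact (hPT τ hτ).2
  · intro b hb b' hb' he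
    obtain ⟨τ, hτ, rfl⟩ := Finset.mem_image.1 hb
    obtain ⟨τ', hτ', rfl⟩ := Finset.mem_image.1 hb'
    rw [hgτ τ (hPT τ hτ).1, hgτ τ' (hPT τ' hτ').1] at he
    rw [he]

end Pool.Agent.N714.Sym
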