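import Pool.Agent.N714.Sym.Final

/-!
Passage from a set `A` to its translate `A + s`.
-/

set_option autoImplicit false

open Finset Filter

namespace Pool.Agent.N714.Sym

/-- the translate -/
def tr (A : Set ℕ) (s : ℤ) : Set ℕ := {b | ∃ a ∈ A, (b : ℤ) = a + s}

/-- multipliers with centre `-s` -/
def MultS (A : Set ℕ) (s : ℤ) (m : ℕ) : Prop := 0 < m ∧ ∀ a ∈ A, ∃ b ∈ A, (b : ℤ) + s = m * (a + s)

def LinkedS (A : Set ℕ) (s : ℤ) (a c m : ℕ) : Prop :=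
  MultS A s m ∧ ∃ m' : ℕ, MultS A s m' ∧ (m' : ℤ) * (a + s) = m * (c + s)

theorem MultS.mult {A : Set ℕ} {s : ℤ} {m : ℕ} (h : MultS A s m) : Mult (tr A s) m := by
  rintro b ⟨a, ha, hb⟩
  obtain ⟨a', ha', h'⟩ := h.2 a ha
  refine ⟨a', ha', ?_⟩
  push_cast
  rw [hb, h']

theorem tr_basis {A : Set ℕ} {h : ℕ} {s : ℤ} (hA : ∃ n₀, ∀ n, n₀ ≤ n → (reps A h n).Nonempty)
    (hs : ∀ a ∈ A, 0 < (a : ℤ) + s) : ∃ n₀, ∀ n, n₀ ≤ n → (reps (tr A s) h n).Nonempty := by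
  obtain ⟨n₀, hn₀⟩ := hA
  refine ⟨n₀ + h * s.natAbs, fun n hn => ?_⟩
  have h1 : (h : ℤ) * s ≤ h * s.natAbs := by
    refine mul_le_mul_of_nonneg_left ?_ (Int.natCast_nonneg _)
    rw [Int.natCast_natAbs]
    exact le_abs_self s
  have h2 : (n₀ : ℤ) ≤ n - h * s := by
    have : ((n₀ + h * s.natAbs : ℕ) : ℤ) ≤ n := by exact_mod_cast hn
    push_cast at this
    rw [Int.natCast_natAbs] at h1
    linarith
  obtain ⟨m, hm⟩ : ∃ m : ℕ, (m : ℤ) = n - h * s := ⟨((n : ℤ) - h * s).toNat, by omega⟩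
  have h3 : n₀ ≤ m := by omega
  obtain ⟨n', h4, -, h5⟩ := shift (A := tr A s) (B := A) (s := -s)
    (fun a ha => ⟨((a : ℤ) + s).toNat, ⟨a, ha, by have := hs a ha; omega⟩, by
      have := hs a ha; omega⟩) h m (hn₀ m h3)
  have h6 : n' = n := by
    have : (n' : ℤ) = n := by rw [h4, hm]; ring
    exact_mod_cast this
  rwa [h6] at h5

theorem tr_linked {A : Set ℕ} {s : ℤ} (hs : ∀ a ∈ A, 0 < (a : ℤ) + s) {a c m : ℕ} (ha : a ∈ A)
    (hL : LinkedS A s a c m) {b : ℕ} (hb : (b : ℤ) = a + s) :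
    ∃ m', 0 < m ∧ 0 < m' ∧ Mult (tr A s) m ∧ Mult (tr A s) m' ∧
      m' * b = m * ((c : ℤ) + s).toNat := by
  obtain ⟨h1, m', h2, h3⟩ := hL
  refine ⟨m', h1.1, h2.1, h1.mult, h2.mult, ?_⟩
  have h4 := hs a ha
  have h5 : 0 < (c : ℤ) + s := by
    have e1 : 0 < (m' : ℤ) * (a + s) := mul_pos (by exact_mod_cast h2.1) h4
    rw [h3] at e1
    exact pos_of_mul_pos_right e1 (Int.natCast_nonneg _)
  have h6 : (((c : ℤ) + s).toNat : ℤ) = c + s := Int.toNat_of_nonneg h5.le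
  have h7 : ((m' * b : ℕ) : ℤ) = ((m * ((c : ℤ) + s).toNat : ℕ) : ℤ) := by
    push_cast
    rw [hb, h3, h6]
  exact_mod_cast h7

theorem unbounded_main {A : Set ℕ} {h : ℕ} (hh : 2 ≤ h)
    (hA : ∃ n₀, ∀ n, n₀ ≤ n → (reps A h n).Nonempty) {s : ℤ} (hs : ∀ a ∈ A, 0 < (a : ℤ) + s)
    (F : Finset ℕ) (hF : ∀ a ∈ A, ∃ c ∈ F, ∃ m, LinkedS A s a c m) (K : ℕ) :
    ∃ n, K ≤ (reps A h n).ncard := by
  classical
  rcases Nat.eq_zero_or_pos K with rfl | hK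
  · exact ⟨0, Nat.zero_le _⟩
  obtain ⟨n₀, hn₀⟩ := tr_basis hA hs
  have hpos : ∀ b ∈ tr A s, 0 < b := by
    rintro b ⟨a, ha, hb⟩
    have := hs a ha
    omega
  have H : ∀ b ∈ tr A s, ∃ c ∈ Finset.image (fun c : ℕ => ((c : ℤ) + s).toNat) F, ∃ m m' : ℕ, 0 < m ∧ 0 < m' ∧
      Mult (tr A s) m ∧ Mult (tr A s) m' ∧ m' * b = m * c := by
    rintro b ⟨a, ha, hb⟩
    obtain ⟨c, hc, m, hm⟩ := hF a ha
    obtain ⟨m', h1⟩ := tr_linked hs ha hm hb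
    exact ⟨_, Finset.mem_image.2 ⟨c, hc, rfl⟩, m, m', h1⟩
  choose! f hf m m' hm using H
  obtain ⟨C, K', -, -, H2⟩ := many hpos hh hn₀ _ f m m' fun b hb => ⟨hf b hb, hm b hb⟩
  obtain ⟨Q, -, -, c, -, h2⟩ := H2 K
  obtain ⟨n, -, h3, -⟩ := shift (A := A) (B := tr A s) (s := s) (fun b hb => hb) h _
    (Set.nonempty_of_ncard_ne_zero (by omega : (reps (tr A s) h (c * ∏ b ∈ Q, m b)).ncard ≠ 0))
  exact ⟨n, h2.trans h3⟩

theorem quant_main {A : Set ℕ} {h : ℕ} (hh : 2 ≤ h)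
    (hA : ∃ n₀, ∀ n, n₀ ≤ n → (reps A h n).Nonempty) {s : ℤ} (hs : ∀ a ∈ A, 0 < (a : ℤ) + s)
    (F : Finset ℕ) (D : ℕ)
    (hF : ∀ a ∈ A, ∃ c ∈ F, ∃ m, LinkedS A s a c m ∧ (m : ℤ) ≤ D * (a + s) ^ D) :
    ∃ c : ℝ, 0 < c ∧ ∃ᶠ n : ℕ in atTop, c * Real.sqrt (Real.log n) ≤ (reps A h n).ncard := by
  classical
  obtain ⟨n₀, hn₀⟩ := tr_basis hA hs
  have hpos : ∀ b ∈ tr A s, 0 < b := by
    rintro b ⟨a, ha, hb⟩
    have := hs a ha
    omega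
  have H : ∀ b ∈ tr A s, ∃ c ∈ Finset.image (fun c : ℕ => ((c : ℤ) + s).toNat) F, ∃ m m' : ℕ, (0 < m ∧ 0 < m' ∧
      Mult (tr A s) m ∧ Mult (tr A s) m' ∧ m' * b = m * c) ∧ m ≤ D * b ^ D := by
    rintro b ⟨a, ha, hb⟩
    obtain ⟨c, hc, m, hm, hmD⟩ := hF a ha
    obtain ⟨m', h1⟩ := tr_linked hs ha hm hb
    refine ⟨_, Finset.mem_image.2 ⟨c, hc, rfl⟩, m, m', h1, ?_⟩
    rw [← hb] at hmD
    exact_mod_cast hmD
  choose! f hf m m' hm using H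
  obtain ⟨c, hc, hfr⟩ := quant hpos hh hn₀ _ f m m' (fun b hb => ⟨hf b hb, (hm b hb).1⟩) D
    fun b hb => (hm b hb).2
  refine ⟨c / Real.sqrt 2, by positivity, ?_⟩
  rw [frequently_atTop] at hfr ⊢
  intro N
  -- large elements
  obtain ⟨n', hn', hn''⟩ := hfr (N + n₀ + h * s.natAbs + 4)
  obtain ⟨n, h1, h3, -⟩ := shift (A := A) (B := tr A s) (s := s) (fun b hb => hb) h n'
    (hn₀ n' (by omega))
  have h4 : |(h : ℤ) * s| = h * s.natAbs := by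
    rw [abs_mul, Int.natCast_natAbs, abs_of_nonneg (Int.natCast_nonneg h)]
  have h4a : (h : ℤ) * s ≤ h * s.natAbs := h4 ▸ le_abs_self _
  have h4b : -((h : ℤ) * s) ≤ h * s.natAbs := h4 ▸ neg_le_abs _
  have h5 : N ≤ n := by
    have e1 : ((N + n₀ + h * s.natAbs + 4 : ℕ) : ℤ) ≤ n' := by exact_mod_cast hn'
    push_cast at e1 h4a
    have : (N : ℤ) ≤ n := by rw [h1]; linarith
    exact_mod_cast this
  have h6 : n ≤ n' ^ 2 := by
    have e1 : ((h * s.natAbs : ℕ) : ℤ) ≤ n' := by exact_mod_cast (by omega : h * s.natAbs ≤ n')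
    push_cast at e1 h4b
    have e2 : (n : ℤ) ≤ 2 * n' := by rw [h1]; linarith
    have e3 : n ≤ 2 * n' := by exact_mod_cast e2
    nlinarith
  refine ⟨n, h5, ?_⟩
  have h7 : Real.log n ≤ 2 * Real.log n' := by
    rcases Nat.eq_zero_or_pos n with h0 | h0
    · rw [h0]
      simp only [Nat.cast_zero, Real.log_zero]
      have := Real.log_natCast_nonneg n'
      linarith
    · calc Real.log n ≤ Real.log ((n' ^ 2 : ℕ) : ℝ) :=
            Real.log_le_log (by exact_mod_cast h0) (by exact_mod_cast h6)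
        _ = 2 * Real.log n' := by push_cast; rw [Real.log_pow]; push_cast; ring
  have h8 : Real.sqrt (Real.log n) ≤ Real.sqrt 2 * Real.sqrt (Real.log n') := by
    rw [← Real.sqrt_mul (by norm_num)]
    exact Real.sqrt_le_sqrt h7
  calc c / Real.sqrt 2 * Real.sqrt (Real.log n)
      ≤ c / Real.sqrt 2 * (Real.sqrt 2 * Real.sqrt (Real.log n')) :=
        mul_le_mul_of_nonneg_left h8 (by positivity)
    _ = c * Real.sqrt (Real.log n') := by field_simp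
    _ ≤ (reps (tr A s) h n').ncard := hn''
    _ ≤ (reps A h n).ncard := by exact_mod_cast h3

end Pool.Agent.N714.Sym
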