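import Pool.Agent.N714.Sym.Basic

/-!
Sets of positive integers with many multipliers: the types of the representations of the elements
of the set.
-/

set_option autoImplicit false

open Finset Filter

namespace Pool.Agent.N714.Sym

/-- `m` is a multiplier of `B` -/
def Mult (B : Set ℕ) (m : ℕ) : Prop := ∀ b ∈ B, m * b ∈ B

theorem Mult.mul {B : Set ℕ} {m m' : ℕ} (h : Mult B m) (h' : Mult B m') : Mult B (m * m') :=
  fun b hb => by rw [mul_assoc]; exact h _ (h' b hb)

theorem Mult.prod {B : Set ℕ} {ι : Type*} (s : Finset ι) (f : ι → ℕ) (h : ∀ i ∈ s, Mult B (f i)) :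
    Mult B (∏ i ∈ s, f i) := by
  classical
  induction s using Finset.induction_on with
  | empty => intro b hb; simpa using hb
  | insert i s hi ih =>
    rw [Finset.prod_insert hi]
    exact (h i (Finset.mem_insert_self _ _)).mul (ih fun j hj => h j (Finset.mem_insert_of_mem hj))

/-- the type of a representation of `b`: the quotients of the summands by `b` -/
noncomputable def typ (b : ℕ) (s : Multiset ℕ) : Multiset ℚ :=
  Multiset.map (fun x : ℕ => (x : ℚ) / (b : ℚ)) s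

/-- different types give different representations of a common multiple -/
theorem types {B : Set ℕ} {h : ℕ} {ι : Type*} [DecidableEq ι] (Q : Finset ι) (b m m' : ι → ℕ)
    (c : ℕ) (σ : ι → Multiset ℕ) (hσ : ∀ i ∈ Q, σ i ∈ reps B h (b i))
    (hm : ∀ i ∈ Q, Mult B (m i)) (hm' : ∀ i ∈ Q, Mult B (m' i)) (hb : ∀ i ∈ Q, 0 < b i)
    (hm0 : ∀ i ∈ Q, 0 < m i) (hc : 0 < c) (hrel : ∀ i ∈ Q, m' i * b i = m i * c)
    (hdist : ∀ i ∈ Q, ∀ j ∈ Q, typ (b i) (σ i) = typ (b j) (σ j) → i = j) :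
    Q.card ≤ (reps B h (c * ∏ i ∈ Q, m i)).ncard := by
  set φ : ι → Multiset ℕ := fun i => (σ i).map fun x => m' i * (∏ j ∈ Q.erase i, m j) * x with hφ
  have hP : 0 < ∏ i ∈ Q, m i := Finset.prod_pos hm0
  have hmem : ∀ i ∈ Q, φ i ∈ reps B h (c * ∏ i ∈ Q, m i) := by
    intro i hi
    obtain ⟨h1, h2, h3⟩ := hσ i hi
    refine ⟨by rw [hφ]; simpa using h1, ?_, ?_⟩
    · intro x hx
      obtain ⟨y, hy, rfl⟩ := Multiset.mem_map.1 hx
      exact ((hm' i hi).mul (Mult.prod _ _ fun j hj => hm j (Finset.mem_of_mem_erase hj))) y (h2 y hy)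
    · show ((σ i).map fun x => m' i * (∏ j ∈ Q.erase i, m j) * x).sum = _
      rw [Multiset.sum_map_mul_left, Multiset.map_id', h3]
      calc m' i * (∏ j ∈ Q.erase i, m j) * b i = (m' i * b i) * ∏ j ∈ Q.erase i, m j := by ring
        _ = c * (m i * ∏ j ∈ Q.erase i, m j) := by rw [hrel i hi]; ring
        _ = c * ∏ i ∈ Q, m i := by rw [Finset.mul_prod_erase _ _ hi]
  -- the type can be recovered from `φ i`
  have hrec : ∀ i ∈ Q, typ (c * ∏ i ∈ Q, m i) (φ i) = typ (b i) (σ i) := by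
    intro i hi
    show Multiset.map (fun x : ℕ => (x : ℚ) / ((c * ∏ i ∈ Q, m i : ℕ) : ℚ))
      (Multiset.map (fun x => m' i * (∏ j ∈ Q.erase i, m j) * x) (σ i)) =
      Multiset.map (fun x : ℕ => (x : ℚ) / ((b i : ℕ) : ℚ)) (σ i)
    rw [Multiset.map_map]
    refine Multiset.map_congr rfl fun x _ => ?_
    rw [Function.comp_apply]
    have h1 : (b i : ℚ) ≠ 0 := by exact_mod_cast (hb i hi).ne'
    have h2 : ((c * ∏ i ∈ Q, m i : ℕ) : ℚ) ≠ 0 := by
      exact_mod_cast (Nat.mul_pos hc hP).ne'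
    rw [div_eq_div_iff h2 h1]
    have h3 : m' i * (∏ j ∈ Q.erase i, m j) * x * b i = x * (c * ∏ i ∈ Q, m i) := by
      calc m' i * (∏ j ∈ Q.erase i, m j) * x * b i
          = x * ((m' i * b i) * ∏ j ∈ Q.erase i, m j) := by ring
        _ = x * (c * (m i * ∏ j ∈ Q.erase i, m j)) := by rw [hrel i hi]; ring
        _ = x * (c * ∏ i ∈ Q, m i) := by rw [Finset.mul_prod_erase _ _ hi]
    exact_mod_cast h3
  have hinj : Set.InjOn φ Q := by
    intro i hi j hj hij
    refine hdist i hi j hj ?_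
    rw [← hrec i hi, ← hrec j hj, hij]
  calc Q.card = (Q.image φ).card := (Finset.card_image_of_injOn hinj).symm
    _ = ((Q.image φ : Finset (Multiset ℕ)) : Set (Multiset ℕ)).ncard :=
        (Set.ncard_coe_finset _).symm
    _ ≤ _ := by
        refine Set.ncard_le_ncard ?_ (reps_finite _ _ _)
        intro s hs
        obtain ⟨i, hi, rfl⟩ := Finset.mem_image.1 (Finset.mem_coe.1 hs)
        exact hmem i hi

/-- the descent -/
theorem descent {B : Set ℕ} (n₁ X : ℕ) (Y : Finset ℚ)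
    (hX : ∀ b ∈ B, n₁ ≤ b → b ≤ X → ∃ x ∈ B, 0 < x ∧ 2 * x ≤ b ∧ (x : ℚ) / b ∈ Y) :
    ∀ b ∈ B, b ≤ X → ∃ x₀ < n₁, ∃ e : Y → ℕ, ∑ y, e y ≤ Nat.log 2 b ∧
      0 < ∏ y : Y, (y : ℚ) ^ e y ∧ (b : ℚ) * ∏ y : Y, (y : ℚ) ^ e y = x₀ := by
  classical
  intro b
  induction b using Nat.strong_induction_on with
  | _ b ih =>
    intro hb hbX
    by_cases hn : b < n₁
    · exact ⟨b, hn, fun _ => 0, by simp, by simp, by simp⟩
    · obtain ⟨x, hx, hx0, h2x, hY⟩ := hX b hb (by omega) hbX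
      have hb0 : 0 < b := by omega
      obtain ⟨x₀, hx₀, e, he, hpos, heq⟩ := ih x (by omega) hx (by omega)
      have h1 : ∏ y : Y, (y : ℚ) ^ (Pi.single (⟨(x : ℚ) / b, hY⟩ : Y) 1 : Y → ℕ) y =
          (x : ℚ) / b := by
        rw [Finset.prod_eq_single (⟨(x : ℚ) / b, hY⟩ : Y)]
        · simp
        · intro y _ hy
          rw [Pi.single_eq_of_ne hy, pow_zero]
        · intro h
          exact absurd (Finset.mem_univ _) h
      have h2 : (b : ℚ) ≠ 0 := by exact_mod_cast hb0.ne'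
      have h3 : (0 : ℚ) < (x : ℚ) / b := by positivity
      refine ⟨x₀, hx₀, e + Pi.single ⟨_, hY⟩ 1, ?_, ?_, ?_⟩
      · simp only [Pi.add_apply, Finset.sum_add_distrib]
        rw [Finset.sum_pi_single']
        simp only [Finset.mem_univ, if_true]
        have h1 : Nat.log 2 x + 1 ≤ Nat.log 2 b := by
          rw [← Nat.log_mul_base (by norm_num) (by omega)]
          exact Nat.log_mono_right (by omega)
        omega
      · simp only [Pi.add_apply, pow_add, Finset.prod_mul_distrib]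
        rw [h1]
        exact mul_pos hpos h3
      · simp only [Pi.add_apply, pow_add, Finset.prod_mul_distrib]
        rw [h1, ← heq]
        field_simp

/-- counting the elements generated by few quotients -/
theorem count {B : Set ℕ} (n₁ X : ℕ) (Y : Finset ℚ)
    (hX : ∀ b ∈ B, n₁ ≤ b → b ≤ X → ∃ x ∈ B, 0 < x ∧ 2 * x ≤ b ∧ (x : ℚ) / b ∈ Y)
    (q : ℝ) (hq : 0 < q) (hq1 : q < 1) :
    ((B ∩ Set.Iic X).ncard : ℝ) * q ^ (Nat.log 2 X) ≤ n₁ * (1 / (1 - q)) ^ Y.card := by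
  classical
  have hfin : (B ∩ Set.Iic X).Finite := (Set.finite_Iic X).subset Set.inter_subset_right
  set BX := hfin.toFinset with hBX
  have hmem : ∀ b ∈ BX, b ∈ B ∧ b ≤ X := by
    intro b hb
    have := hfin.mem_toFinset.1 hb
    exact ⟨this.1, this.2⟩
  have H := descent n₁ X Y hX
  choose! x₀ hx₀ e he hpos heq using H
  set L := Nat.log 2 X with hL
  set G : ℕ → ℕ × (Y → ℕ) := fun b => (x₀ b, e b) with hG
  have hinj : Set.InjOn G BX := by
    intro b hb b' hb' hbb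
    obtain ⟨h1, h2⟩ := hmem b hb
    obtain ⟨h1', h2'⟩ := hmem b' hb'
    have e1 : x₀ b = x₀ b' := congrArg Prod.fst hbb
    have e2 : e b = e b' := congrArg Prod.snd hbb
    have h3 := heq b h1 h2
    have h4 := heq b' h1' h2'
    rw [e1, e2, ← h4] at h3
    have := mul_right_cancel₀ (hpos b' h1' h2').ne' h3
    exact_mod_cast this
  -- weights
  set W : ℕ × (Y → ℕ) → ℝ := fun p => ∏ y, q ^ p.2 y with hW
  have hW0 : ∀ p, 0 ≤ W p := fun p => Finset.prod_nonneg fun y _ => (pow_pos hq _).le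
  have hwt : ∀ b ∈ BX, q ^ L ≤ W (G b) := by
    intro b hb
    obtain ⟨h1, h2⟩ := hmem b hb
    show q ^ L ≤ ∏ y, q ^ e b y
    rw [Finset.prod_pow_eq_pow_sum]
    refine pow_le_pow_of_le_one hq.le hq1.le ?_
    exact (he b h1 h2).trans (Nat.log_mono_right h2)
  set T : Finset (ℕ × (Y → ℕ)) :=
    (range n₁) ×ˢ (Fintype.piFinset fun _ : Y => range (L + 1)) with hT
  have hsub : BX.image G ⊆ T := by
    intro p hp
    obtain ⟨b, hb, rfl⟩ := Finset.mem_image.1 hp
    obtain ⟨h1, h2⟩ := hmem b hb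
    rw [hT, Finset.mem_product]
    refine ⟨Finset.mem_range.2 (hx₀ b h1 h2), ?_⟩
    rw [Fintype.mem_piFinset]
    intro y
    rw [Finset.mem_range]
    have h3 : e b y ≤ ∑ z, e b z :=
      Finset.single_le_sum (fun _ _ => Nat.zero_le _) (Finset.mem_univ y)
    have h4 := he b h1 h2
    have h5 : Nat.log 2 b ≤ L := Nat.log_mono_right h2
    show e b y < L + 1
    omega
  have h1 : (BX.card : ℝ) * q ^ L ≤ ∑ p ∈ T, W p := by
    calc (BX.card : ℝ) * q ^ L = ∑ _b ∈ BX, q ^ L := by rw [Finset.sum_const, nsmul_eq_mul]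
      _ ≤ ∑ b ∈ BX, W (G b) := Finset.sum_le_sum hwt
      _ = ∑ p ∈ BX.image G, W p := (Finset.sum_image hinj).symm
      _ ≤ ∑ p ∈ T, W p := Finset.sum_le_sum_of_subset_of_nonneg hsub fun p _ _ => hW0 p
  have h2 : ∑ p ∈ T, W p = n₁ * (∑ i ∈ range (L + 1), q ^ i) ^ Y.card := by
    rw [hT, Finset.sum_product]
    simp only [hW]
    rw [Finset.sum_const, card_range, nsmul_eq_mul]
    congr 1
    rw [← Finset.prod_univ_sum (fun _ : Y => range (L + 1)) (fun _ i => q ^ i)]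
    rw [Finset.prod_const, Finset.card_univ, Fintype.card_coe]
  have h3 : ∑ i ∈ range (L + 1), q ^ i ≤ 1 / (1 - q) := by
    rw [geom_sum_eq hq1.ne, ← neg_sub, ← neg_sub (1 : ℝ) q, neg_div_neg_eq]
    refine div_le_div_of_nonneg_right ?_ (by linarith)
    have := pow_pos hq (L + 1)
    linarith
  rw [Set.ncard_eq_toFinset_card _ hfin]
  refine h1.trans ?_
  rw [h2]
  refine mul_le_mul_of_nonneg_left ?_ (Nat.cast_nonneg _)
  exact pow_le_pow_left₀ (Finset.sum_nonneg fun i _ => (pow_pos hq i).le) h3 _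

end Pool.Agent.N714.Sym
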